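import Mathlib

set_option autoImplicit false

namespace Pool.Agent.Results.MP_f02465_al.Steps

open Set

abbrev F : Type := FreeGroup (Fin 2)

/-- the four letters `a, b, a⁻¹, b⁻¹` -/
def letter (h : Fin 2 × Bool) : F := if h.2 then FreeGroup.of h.1 else (FreeGroup.of h.1)⁻¹

/-- the edge `(C, h)` of the coset graph goes from `C` to `letter h • C` -/
def target {H : Subgroup F} (e : (F ⧸ H) × (Fin 2 × Bool)) : F ⧸ H := letter e.2 • e.1

/-- `E H y i` is the set `E_{i+1}` of edges highlighted at step `i + 1` -/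
def E (H : Subgroup F) (y : F) : ℕ → Set ((F ⧸ H) × (Fin 2 × Bool))
  | 0 => {e | e.1 = (y : F ⧸ H)}
  | i + 1 => {e | (∃ d ∈ E H y i, target d = e.1) ∧
      ¬ ∃ d ∈ E H y i, d.1 = target e ∧ target d = e.1}

variable {H : Subgroup F}

def rev (e : (F ⧸ H) × (Fin 2 × Bool)) : (F ⧸ H) × (Fin 2 × Bool) := (target e, (e.2.1, !e.2.2))

lemma target_rev (e : (F ⧸ H) × (Fin 2 × Bool)) : target (rev e) = e.1 := by
  obtain ⟨C, i, b⟩ := e
  cases b <;> simp [target, rev, letter]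

lemma rev_rev (e : (F ⧸ H) × (Fin 2 × Bool)) : rev (rev e) = e := by
  refine Prod.ext (target_rev e) ?_
  simp [rev]

def U (H : Subgroup F) (y : F) : ℕ → Set (F ⧸ H)
  | 0 => ∅
  | 1 => ∅
  | 2 => {(y : F ⧸ H)}
  | i + 3 => {s | ∃ e, e.1 ∈ U H y (i + 2) ∧ target e = s}

lemma U_step (y : F) (i : ℕ) (e : (F ⧸ H) × (Fin 2 × Bool)) (h : e.1 ∈ U H y i) :
    target e ∈ U H y (i + 1) := by
  match i, h with
  | 0, h => exact absurd h (notMem_empty _)
  | 1, h => exact absurd h (notMem_empty _)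
  | i + 2, h => exact ⟨e, h, rfl⟩

lemma U_mono (y : F) (i : ℕ) : U H y i ⊆ U H y (i + 2) := fun s hs => by
  have h := U_step y (i + 1) (rev (s, (0, true))) (U_step y i (s, (0, true)) hs)
  rwa [target_rev] at h

lemma E_eq (y : F) (i : ℕ) :
    E H y i = {e | e.1 ∈ U H y (i + 2) ∧ e.1 ∉ U H y i ∧ target e ∉ U H y (i + 1)} := by
  induction i with
  | zero => ext e; simp [E, U]
  | succ i ih =>
    ext e
    simp only [E, ih, mem_ofPred_eq]
    constructor
    · rintro ⟨⟨d, ⟨h1, h2, h3⟩, h4⟩, h5⟩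
      refine ⟨⟨d, h1, h4⟩, h4 ▸ h3, fun h6 => h5 ⟨rev e, ⟨h6, fun h7 => h3 ?_, ?_⟩, rfl, target_rev e⟩⟩
      · rw [h4, ← target_rev e]; exact U_step y i _ h7
      · rw [target_rev, ← h4]; exact h3
    · rintro ⟨⟨d, h1, h2⟩, h3, h4⟩
      refine ⟨⟨d, ⟨h1, fun h5 => h3 (h2 ▸ U_step y i d h5), h2 ▸ h3⟩, h2⟩, ?_⟩
      rintro ⟨d', ⟨h5, -, -⟩, h6, -⟩
      exact h4 (h6 ▸ h5)

lemma count [Finite (F ⧸ H)] (y : F) (i : ℕ) :
    (E H y (i + 1)).ncard + (E H y i).ncard + 4 * (U H y (i + 1)).ncard =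
      4 * (U H y (i + 3)).ncard := by
  have hr : (rev '' E H y i).ncard = (E H y i).ncard :=
    ncard_image_of_injective _ (Function.LeftInverse.injective rev_rev)
  have hmem : ∀ e, e ∈ rev '' E H y i ↔ rev e ∈ E H y i := fun e =>
    ⟨fun ⟨d, hd, h⟩ => by rw [← h, rev_rev]; exact hd, fun h => ⟨rev e, h, rev_rev e⟩⟩
  have hu : E H y (i + 1) ∪ rev '' E H y i = (U H y (i + 3) \ U H y (i + 1)) ×ˢ univ := by
    ext e
    rw [mem_union, hmem, E_eq, E_eq]
    simp only [mem_ofPred_eq, target_rev, mem_prod, mem_sdiff, mem_univ, and_true]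
    constructor
    · rintro (⟨h1, h2, -⟩ | ⟨h1, -, h3⟩)
      · exact ⟨h1, h2⟩
      · exact ⟨target_rev e ▸ U_step y _ _ h1, h3⟩
    · rintro ⟨h1, h2⟩
      by_cases h : target e ∈ U H y (i + 2)
      · exact Or.inr ⟨h, fun h3 => h2 (target_rev e ▸ U_step y _ _ h3), h2⟩
      · exact Or.inl ⟨h1, h2, h⟩
  have hd : Disjoint (E H y (i + 1)) (rev '' E H y i) := by
    rw [Set.disjoint_left]
    intro e h1 h2
    rw [hmem, E_eq] at h2
    rw [E_eq] at h1
    exact h1.2.2 h2.1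
  have h4 : (univ : Set (Fin 2 × Bool)).ncard = 4 := by simp [ncard_univ]
  have hs := ncard_sdiff_add_ncard_of_subset (U_mono (H := H) y (i + 1))
  rw [← hr, ← ncard_union_eq hd, hu, ncard_prod, h4]
  change (U H y (i + 3) \ U H y (i + 1)).ncard + _ = (U H y (i + 3)).ncard at hs
  omega

lemma E0 (y : F) : (E H y 0).ncard = 4 := by
  have : E H y 0 = {(y : F ⧸ H)} ×ˢ univ := by ext e; simp [E]
  rw [this, ncard_prod]
  simp [ncard_univ]

lemma inv [Finite (F ⧸ H)] (y : F) (i : ℕ) : 4 ∣ (E H y i).ncard ∧ ((E H y i).Nonempty →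
    8 * i + (E H y i).ncard ≤ 4 * (U H y (i + 1)).ncard + 4 * (U H y (i + 2)).ncard) := by
  induction i with
  | zero => simp [E0, U]
  | succ i ih =>
    have hc := count (H := H) y i
    refine ⟨by omega, fun ⟨e, ⟨d, hd, _⟩, _⟩ => ?_⟩
    have h1 := ih.2 ⟨d, hd⟩
    have h2 : 0 < (E H y i).ncard := (ncard_pos (toFinite _)).mpr ⟨d, hd⟩
    have h3 := ih.1
    change _ ≤ 4 * (U H y (i + 2)).ncard + 4 * (U H y (i + 3)).ncard
    omega

theorem result (H : Subgroup F) [H.FiniteIndex] (y : F) (i : ℕ) (hi : H.index < i + 1) :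
    E H y i = ∅ := by
  by_contra h
  have hne : (E H y i).Nonempty := nonempty_iff_ne_empty.mpr h
  obtain ⟨h1, h2⟩ := inv (H := H) y i
  have h3 := h2 hne
  have h4 : 0 < (E H y i).ncard := (ncard_pos (toFinite _)).mpr hne
  have hc := count (H := H) y i
  have b : ∀ j, (U H y j).ncard ≤ H.index := fun j => ncard_le_card _
  have b2 := b (i + 2)
  have b3 := b (i + 3)
  omega

end Pool.Agent.Results.MP_f02465_al.Steps
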